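import Pool.Agent.H476R2.Pal.SDefs
import Pool.Agent.H305R2.MertensE
import Pool.Agent.H305R2.MertensM

/-! Task S4 of h476_tasks: Mertens for the primes not dividing `10`. -/

set_option autoImplicit false

namespace Pool.Agent.H503R2.PalS4

open Finset Filter Topology Pool.Agent.H476R2.Pal

/-! ### S4c: telescoping -/

theorem VZ_succ (z : ℕ) : VZ (z + 1) =
    if z.Prime ∧ ¬ z ∣ 10 then VZ z * (1 - 1 / (z : ℝ)) else VZ z := by
  unfold VZ
  rw [range_add_one, filter_insert]
  split_ifs with h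
  · rw [prod_insert (by simp), mul_comm]
  · rfl

theorem V_tele (a b : ℕ) (hab : a ≤ b) :
    ∑ p ∈ (range b).filter (fun p => p.Prime ∧ ¬ p ∣ 10 ∧ a ≤ p), VZ p / p = VZ a - VZ b := by
  induction b, hab using Nat.le_induction with
  | base =>
    rw [sub_self]
    apply sum_eq_zero
    intro p hp
    rw [mem_filter, mem_range] at hp
    omega
  | succ b hb ih =>
    rw [range_add_one, filter_insert, VZ_succ]
    by_cases h : b.Prime ∧ ¬ b ∣ 10
    · rw [if_pos ⟨h.1, h.2, hb⟩, if_pos h, sum_insert (by simp), ih]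
      have : (b : ℝ) ≠ 0 := by exact_mod_cast h.1.ne_zero
      field_simp
      ring
    · rw [if_neg (fun h' => h ⟨h'.1, h'.2.1⟩), if_neg h, ih]

/-! ### S4a -/

theorem prime_dvd_ten {p : ℕ} (hp : p.Prime) : p ∣ 10 ↔ p = 2 ∨ p = 5 := by
  constructor
  · intro h
    rw [show (10 : ℕ) = 2 * 5 by norm_num, hp.dvd_mul] at h
    rcases h with h | h
    · exact Or.inl ((Nat.prime_dvd_prime_iff_eq hp Nat.prime_two).1 h)
    · exact Or.inr ((Nat.prime_dvd_prime_iff_eq hp (by norm_num)).1 h)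
  · rintro (rfl | rfl) <;> norm_num

theorem prod_all (N : ℕ) (hN : 5 ≤ N) :
    ∏ p ∈ (Icc 1 N).filter Nat.Prime, (1 - (p : ℝ)⁻¹)⁻¹ = 5 / 2 * (VZ (N + 1))⁻¹ := by
  have h1 : (Icc 1 N).filter Nat.Prime =
      insert 2 (insert 5 ((range (N + 1)).filter (fun p => p.Prime ∧ ¬ p ∣ 10))) := by
    ext p
    simp only [mem_filter, mem_Icc, mem_insert, mem_range]
    constructor
    · rintro ⟨⟨h1, h2⟩, hp⟩
      by_cases h : p ∣ 10
      · rcases (prime_dvd_ten hp).1 h with h | h <;> simp [h]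
      · exact Or.inr (Or.inr ⟨by omega, hp, h⟩)
    · rintro (rfl | rfl | ⟨h1, hp, h2⟩)
      · exact ⟨⟨by norm_num, by omega⟩, Nat.prime_two⟩
      · exact ⟨⟨by norm_num, hN⟩, by norm_num⟩
      · exact ⟨⟨hp.one_le, by omega⟩, hp⟩
  rw [h1, prod_insert, prod_insert]
  · unfold VZ
    rw [← prod_inv_distrib]
    simp only [one_div]
    norm_num
    ring
  · simp
  · simp

theorem V_lim : Tendsto (fun z : ℕ => VZ z * Real.log z) atTop
    (𝓝 (5 / 2 * Real.exp (-Real.eulerMascheroniConstant))) := by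
  rw [← tendsto_add_atTop_iff_nat 1]
  have h1 := Pool.Agent.H305R2.mertens_three
  have h2 : Tendsto (fun N : ℕ => Real.log ((N + 1 : ℕ) : ℝ) / Real.log N) atTop (𝓝 1) := by
    have hup : Tendsto (fun N : ℕ => 1 + 1 / Real.log N) atTop (𝓝 1) := by
      have : Tendsto (fun N : ℕ => 1 / Real.log (N : ℝ)) atTop (𝓝 0) :=
        tendsto_const_nhds.div_atTop (Real.tendsto_log_atTop.comp tendsto_natCast_atTop_atTop)
      simpa using this.const_add 1
    refine tendsto_of_tendsto_of_tendsto_of_le_of_le' tendsto_const_nhds hup ?_ ?_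
    · filter_upwards [eventually_ge_atTop 2] with N hN
      have hN' : (1 : ℝ) < N := by exact_mod_cast (by omega : 1 < N)
      rw [le_div_iff₀ (Real.log_pos hN'), one_mul]
      exact Real.log_le_log (by linarith) (by push_cast; linarith)
    · filter_upwards [eventually_ge_atTop 2] with N hN
      have hN' : (1 : ℝ) < N := by exact_mod_cast (by omega : 1 < N)
      have hl := Real.log_pos hN'
      rw [div_le_iff₀ hl]
      have h3 : Real.log ((N + 1 : ℕ) : ℝ) ≤ Real.log N + 1 := by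
        have h4 : Real.log ((N + 1 : ℕ) : ℝ) ≤ Real.log (2 * N) :=
          Real.log_le_log (by positivity) (by push_cast; linarith)
        rw [Real.log_mul (by norm_num) (by linarith)] at h4
        have := Real.log_two_lt_d9
        linarith
      calc Real.log ((N + 1 : ℕ) : ℝ) ≤ Real.log N + 1 := h3
        _ = (1 + 1 / Real.log N) * Real.log N := by field_simp
  have h3 := (h1.inv₀ (Real.exp_pos _).ne').mul h2
  rw [← Real.exp_neg, mul_one] at h3
  have h4 := h3.const_mul (5 / 2)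
  refine h4.congr' ?_
  filter_upwards [eventually_ge_atTop 5] with N hN
  have hN' : (1 : ℝ) < N := by exact_mod_cast (by omega : 1 < N)
  have hl := Real.log_pos hN'
  rw [prod_all N hN]
  by_cases hV : VZ (N + 1) = 0
  · rw [hV]; simp
  · field_simp

/-! ### S4b -/

/-- largest natural number `< D ^ b` -/
noncomputable def NN (b D : ℝ) : ℕ := ⌈D ^ b⌉₊ - 1

theorem NN_bounds (b : ℝ) (hb : 0 < b) : ∀ᶠ D : ℝ in atTop, D ^ b / 2 ≤ (NN b D : ℝ) ∧
    (NN b D : ℝ) ≤ D ^ b ∧ 2 ≤ D ^ b ∧ 1 < D := by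
  filter_upwards [(tendsto_rpow_atTop hb).eventually_ge_atTop 2, eventually_gt_atTop 1] with D hD hD1
  have h1 : D ^ b ≤ ⌈D ^ b⌉₊ := Nat.le_ceil _
  have h2 : (⌈D ^ b⌉₊ : ℝ) < D ^ b + 1 := Nat.ceil_lt_add_one (by linarith)
  have h3 : 1 ≤ ⌈D ^ b⌉₊ := by
    rw [Nat.one_le_iff_ne_zero]
    intro h
    rw [h] at h1
    simp at h1
    linarith
  have h4 : (NN b D : ℝ) = (⌈D ^ b⌉₊ : ℝ) - 1 := by
    unfold NN
    push_cast [Nat.cast_sub h3]
    ring
  rw [h4]
  refine ⟨by linarith, by linarith, hD, hD1⟩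

theorem NN_tendsto (b : ℝ) (hb : 0 < b) : Tendsto (NN b) atTop atTop := by
  rw [← tendsto_natCast_atTop_iff (R := ℝ)]
  apply tendsto_atTop_mono' atTop (f₁ := fun D : ℝ => D ^ b / 2)
  · filter_upwards [NN_bounds b hb] with D hD using hD.1
  · exact (tendsto_rpow_atTop hb).atTop_div_const (by norm_num)

theorem NN_log (b : ℝ) (hb : 0 < b) :
    Tendsto (fun D : ℝ => Real.log (NN b D) / Real.log D) atTop (𝓝 b) := by
  have hlo : Tendsto (fun D : ℝ => b - Real.log 2 / Real.log D) atTop (𝓝 b) := by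
    have : Tendsto (fun D : ℝ => Real.log 2 / Real.log D) atTop (𝓝 0) :=
      tendsto_const_nhds.div_atTop Real.tendsto_log_atTop
    simpa using this.const_sub b
  refine tendsto_of_tendsto_of_tendsto_of_le_of_le' hlo tendsto_const_nhds ?_ ?_
  · filter_upwards [NN_bounds b hb] with D ⟨h1, h2, h3, h4⟩
    have hl := Real.log_pos h4
    have h5 := Real.log_le_log (by positivity) h1
    rw [Real.log_div (by positivity) (by norm_num), Real.log_rpow (by linarith)] at h5
    rw [le_div_iff₀ hl, sub_mul, div_mul_cancel₀ _ hl.ne']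
    exact h5
  · filter_upwards [NN_bounds b hb] with D ⟨h1, h2, h3, h4⟩
    have hl := Real.log_pos h4
    have h0 : (0 : ℝ) < NN b D := lt_of_lt_of_le (by positivity) h1
    have h5 := Real.log_le_log h0 h2
    rw [Real.log_rpow (by linarith)] at h5
    rw [div_le_iff₀ hl]
    exact h5

theorem mem_NN (b D : ℝ) (p : ℕ) (hp : 1 ≤ p) : p ≤ NN b D ↔ (p : ℝ) < D ^ b := by
  unfold NN
  rw [← Nat.lt_ceil]
  omega

theorem mertens_int (a b τ : ℝ) (ha : 0 < a) (hab : a < b) (hτ : 0 < τ) :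
    Tendsto (fun D : ℝ => ∑ p ∈ (range ⌈D ^ b⌉₊).filter (fun p : ℕ => p.Prime ∧ ¬ p ∣ 10 ∧ D ^ a ≤ p),
      (1 - Real.log p / (τ * Real.log D)) / p) atTop (𝓝 (Real.log (b / a) - (b - a) / τ)) := by
  have hb : 0 < b := by linarith
  obtain ⟨M, hM⟩ := Pool.Agent.H305R2.mertens_inv_tendsto
  obtain ⟨C, hC⟩ := Pool.Agent.Helper601.Mertens.mertens_log
  set S1 : ℕ → ℝ := fun N => ∑ p ∈ (Finset.Icc 1 N).filter Nat.Prime, (1 : ℝ) / p with hS1
  set S2 : ℕ → ℝ := fun N => ∑ p ∈ (Finset.Icc 1 N).filter Nat.Prime, Real.log p / p with hS2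
  -- first part
  have hA : Tendsto (fun D : ℝ => S1 (NN b D) - S1 (NN a D)) atTop (𝓝 (Real.log (b / a))) := by
    have h1 := (hM.comp (NN_tendsto b hb)).sub (hM.comp (NN_tendsto a ha))
    rw [sub_self] at h1
    have h2 : Tendsto (fun D : ℝ => Real.log (Real.log (NN b D)) - Real.log (Real.log (NN a D)))
        atTop (𝓝 (Real.log (b / a))) := by
      have h3 := (NN_log b hb).div (NN_log a ha) ha.ne'
      have h4 := (Real.continuousAt_log (div_pos hb ha).ne').tendsto.comp h3
      refine h4.congr' ?_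
      filter_upwards [NN_bounds b hb, NN_bounds a ha,
        (NN_tendsto b hb).eventually_ge_atTop 2, (NN_tendsto a ha).eventually_ge_atTop 2]
        with D h5 h6 h7 h8
      have hl := Real.log_pos h5.2.2.2
      have h9 : 0 < Real.log (NN b D) := Real.log_pos (by exact_mod_cast (by omega : 1 < NN b D))
      have h10 : 0 < Real.log (NN a D) := Real.log_pos (by exact_mod_cast (by omega : 1 < NN a D))
      simp only [Function.comp, Pi.div_apply]
      rw [div_div_div_cancel_right₀ hl.ne', Real.log_div h9.ne' h10.ne']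
    have h5 := h1.add h2
    rw [zero_add] at h5
    refine h5.congr fun D => ?_
    simp only [Function.comp, hS1]
    ring
  -- second part
  have hB : Tendsto (fun D : ℝ => (S2 (NN b D) - S2 (NN a D)) / Real.log D) atTop (𝓝 (b - a)) := by
    have h1 : ∀ c : ℝ, 0 < c → Tendsto (fun D : ℝ => S2 (NN c D) / Real.log D) atTop (𝓝 c) := by
      intro c hc
      have h2 : Tendsto (fun D : ℝ => (S2 (NN c D) - Real.log (NN c D)) / Real.log D) atTop
          (𝓝 0) := by
        have h3 : Tendsto (fun D : ℝ => C / Real.log D) atTop (𝓝 0) :=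
          tendsto_const_nhds.div_atTop Real.tendsto_log_atTop
        rw [tendsto_zero_iff_abs_tendsto_zero]
        refine squeeze_zero' (Eventually.of_forall fun D => abs_nonneg _) ?_ h3
        filter_upwards [NN_bounds c hc, (NN_tendsto c hc).eventually_ge_atTop 1] with D h4 h5
        have hl := Real.log_pos h4.2.2.2
        simp only [Function.comp]
        rw [abs_div, abs_of_pos hl]
        exact div_le_div_of_nonneg_right (hC _ h5) hl.le
      have h6 := h2.add (NN_log c hc)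
      rw [zero_add] at h6
      refine h6.congr fun D => ?_
      rw [← add_div]
      congr 1
      ring
    refine ((h1 b hb).sub (h1 a ha)).congr fun D => ?_
    rw [← sub_div]
  have hmain := hA.sub (hB.mul_const (1 / τ))
  have e1 : Real.log (b / a) - (b - a) * (1 / τ) = Real.log (b / a) - (b - a) / τ := by ring
  rw [e1] at hmain
  refine hmain.congr' ?_
  filter_upwards [NN_bounds b hb, NN_bounds a ha, (NN_tendsto a ha).eventually_ge_atTop 5]
    with D h5 h6 h7
  have hD1 : 1 < D := h5.2.2.2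
  have hl := Real.log_pos hD1
  have hset : (range ⌈D ^ b⌉₊).filter (fun p : ℕ => p.Prime ∧ ¬ p ∣ 10 ∧ D ^ a ≤ p) =
      ((Finset.Icc 1 (NN b D)).filter Nat.Prime) \ ((Finset.Icc 1 (NN a D)).filter Nat.Prime) := by
    ext p
    simp only [Finset.mem_filter, Finset.mem_sdiff, Finset.mem_range, Finset.mem_Icc, not_and]
    constructor
    · rintro ⟨h1, hp, h2, h3⟩
      rw [Nat.lt_ceil] at h1
      refine ⟨⟨⟨hp.one_le, (mem_NN b D p hp.one_le).2 h1⟩, hp⟩, ?_⟩
      rintro ⟨-, h4⟩
      rw [mem_NN a D p hp.one_le] at h4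
      exact absurd h3 (not_le.2 h4)
    · rintro ⟨⟨⟨h1, h2⟩, hp⟩, h3⟩
      have h4 : ¬ (p ≤ NN a D) := fun h => h3 ⟨h1, h⟩ hp
      refine ⟨?_, hp, ?_, ?_⟩
      · rw [Nat.lt_ceil]
        exact (mem_NN b D p h1).1 h2
      · intro h
        rcases (prime_dvd_ten hp).1 h with h | h <;> omega
      · rw [mem_NN a D p h1] at h4
        linarith
  have hsub : (Finset.Icc 1 (NN a D)).filter Nat.Prime ⊆ (Finset.Icc 1 (NN b D)).filter Nat.Prime := by
    intro p hp
    rw [mem_filter, mem_Icc] at hp ⊢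
    refine ⟨⟨hp.1.1, ?_⟩, hp.2⟩
    rw [mem_NN b D p hp.1.1]
    have h8 := (mem_NN a D p hp.1.1).1 hp.1.2
    exact h8.trans_le (Real.rpow_le_rpow_of_exponent_le hD1.le hab.le)
  have hsum : ∀ N : ℕ, ∑ p ∈ (Finset.Icc 1 N).filter Nat.Prime,
      (1 - Real.log p / (τ * Real.log D)) / p = S1 N - 1 / (τ * Real.log D) * S2 N := by
    intro N
    simp only [hS1, hS2]
    rw [mul_sum, ← sum_sub_distrib]
    apply sum_congr rfl
    intro p hp
    rw [mem_filter, mem_Icc] at hp
    have : (p : ℝ) ≠ 0 := by exact_mod_cast hp.2.ne_zero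
    field_simp
  rw [hset, sum_sdiff_eq_sub hsub, hsum, hsum]
  field_simp
  ring

end Pool.Agent.H503R2.PalS4
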