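import Pool.Agent.H476R2.Pal.GDefs
import Pool.Agent.H898R2.PalT2

/-! helper476's project (palindromes), task Q2: complete sums of products of the majorant `Gf` -/

set_option autoImplicit false

namespace Pool.Agent.H503R2.PalQ2

open Finset Pool.Agent.Helper112 Pool.Agent.H476R2.Pal

lemma gwN_rev : ∀ s : Fin 17, gwN (Fin.rev s) = gwN s := by decide

lemma gw_rev (s : Fin 17) : gw (Fin.rev s) = gw s := by
  unfold gw
  rw [gwN_rev]

lemma ee_re (x : ℝ) : (ee x).re = Real.cos (2 * Real.pi * x) := by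
  unfold ee
  have : (2 * (Real.pi : ℂ) * x * Complex.I) = ((2 * Real.pi * x : ℝ) : ℂ) * Complex.I := by
    push_cast; ring
  rw [this, Complex.exp_ofReal_mul_I_re]

lemma Gf_eq (x : ℝ) :
    ((Gf x : ℝ) : ℂ) = ∑ s : Fin 17, (gw s : ℂ) * ee ((((s : ℕ) : ℝ) - 8) * x) := by
  set E : ℂ := ∑ s : Fin 17, (gw s : ℂ) * ee ((((s : ℕ) : ℝ) - 8) * x) with hE
  have hconj : (starRingEnd ℂ) E = E := by
    rw [hE, map_sum]
    rw [← Equiv.sum_comp Fin.revPerm (fun s : Fin 17 => (gw s : ℂ) * ee ((((s : ℕ) : ℝ) - 8) * x))]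
    apply sum_congr rfl
    intro s _
    rw [map_mul, Complex.conj_ofReal, ls_conj_ee, Fin.revPerm_apply, gw_rev]
    congr 2
    rw [Fin.val_rev]
    have h17 : (s : ℕ) + 1 ≤ 17 := s.is_lt
    rw [Nat.cast_sub h17]
    push_cast
    ring
  have hre : E = ((E.re : ℝ) : ℂ) := (Complex.conj_eq_iff_re.1 hconj).symm
  rw [hre]
  congr 1
  rw [hE, Complex.re_sum]
  unfold Gf
  apply sum_congr rfl
  intro s _
  rw [Complex.re_ofReal_mul, ee_re]
  congr 2
  ring

/-- the integer attached to a choice of frequencies -/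
def NZ (L : ℕ) {B : Finset ℕ} (s : B → Fin 17) : ℤ :=
  ∑ c : B, (((s c : Fin 17) : ℕ) - 8 : ℤ) * fr L c

lemma ee_sum {ι : Type} (t : Finset ι) (f : ι → ℝ) : ee (∑ i ∈ t, f i) = ∏ i ∈ t, ee (f i) := by
  classical
  induction t using Finset.induction_on with
  | empty => simp [ls_ee_zero]
  | insert a t ha ih => rw [sum_insert ha, prod_insert ha, ls_ee_add, ih]

lemma prod_Gf (L : ℕ) (B : Finset ℕ) (α : ℝ) :
    ((∏ c ∈ B, Gf (fr L c * α) : ℝ) : ℂ) =
      ∑ s ∈ Fintype.piFinset (fun _ : B => (univ : Finset (Fin 17))),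
        ((∏ c : B, gw (s c) : ℝ) : ℂ) * ee ((NZ L s : ℝ) * α) := by
  rw [← prod_coe_sort B (fun c => Gf (fr L c * α)), Complex.ofReal_prod]
  simp only [Gf_eq]
  rw [prod_univ_sum]
  apply sum_congr rfl
  intro s _
  rw [prod_mul_distrib, Complex.ofReal_prod, ← ee_sum]
  congr 2
  unfold NZ
  push_cast
  rw [sum_mul]
  apply sum_congr rfl
  intro c _
  ring

/-- Q2: exact formula for complete sums of products of the majorant -/
theorem G_core (L M : ℕ) (hM : 0 < M) (B : Finset ℕ) :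
    ∑ a ∈ range M, ∏ c ∈ B, Gf (fr L c * ((a : ℝ) / M)) =
      M * ∑ s ∈ Fintype.piFinset (fun _ : B => (univ : Finset (Fin 17))),
        if (M : ℤ) ∣ ∑ c : B, (((s c : Fin 17) : ℕ) - 8 : ℤ) * fr L c then ∏ c : B, gw (s c) else 0 := by
  have h : ((∑ a ∈ range M, ∏ c ∈ B, Gf (fr L c * ((a : ℝ) / M)) : ℝ) : ℂ) =
      ((M * ∑ s ∈ Fintype.piFinset (fun _ : B => (univ : Finset (Fin 17))),
        (if (M : ℤ) ∣ NZ L s then ∏ c : B, gw (s c) else 0) : ℝ) : ℂ) := by
    rw [Complex.ofReal_sum]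
    simp only [prod_Gf]
    rw [sum_comm, Complex.ofReal_mul, Complex.ofReal_sum, mul_sum]
    apply sum_congr rfl
    intro s _
    rw [← mul_sum, Pool.Agent.H898R2.PalT2.sum_ee M hM (NZ L s)]
    split_ifs
    · rw [mul_comm, Complex.ofReal_natCast]
    · simp
  exact_mod_cast h

lemma NZ_eq (L : ℕ) {B : Finset ℕ} (hB : B ⊆ range L) (s : B → Fin 17) :
    NZ L s = ((∑ c ∈ range L, (if h : c ∈ B then ((s ⟨c, h⟩ : Fin 17) : ℕ) - 8 else 0) * fr L (0 + c) : ℕ) : ℤ) -
      ((∑ c ∈ range L, (if h : c ∈ B then 8 - ((s ⟨c, h⟩ : Fin 17) : ℕ) else 0) * fr L (0 + c) : ℕ) : ℤ) := by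
  have h1 : NZ L s = ∑ c ∈ B, (if h : c ∈ B then (((s ⟨c, h⟩ : Fin 17) : ℕ) - 8 : ℤ) else 0) * fr L c := by
    rw [← sum_coe_sort B]
    unfold NZ
    apply sum_congr rfl
    intro c _
    rw [dif_pos c.2]
  rw [h1]
  rw [sum_subset hB (f := fun c => (if h : c ∈ B then (((s ⟨c, h⟩ : Fin 17) : ℕ) - 8 : ℤ) else 0) * (fr L c : ℤ))]
  · push_cast
    rw [← sum_sub_distrib]
    apply sum_congr rfl
    intro c _
    rw [← sub_mul, Nat.zero_add]
    congr 1
    split_ifs with h
    · omega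
    · simp
  · intro c _ hc
    rw [dif_neg hc, zero_mul]

lemma NZ_ne (L : ℕ) {B : Finset ℕ} (hB : B ⊆ range L) (s : B → Fin 17) (h : NZ L s = 0) :
    s = fun _ => 8 := by
  rw [NZ_eq L hB s, sub_eq_zero] at h
  have h' := Nat.cast_injective h
  have h2 := Pool.Agent.H898R2.PalT2.digits_inj L 0 _ _ L (by omega) (fun j hj => by
      split_ifs with hj'
      · have := (s ⟨j, hj'⟩).is_lt
        omega
      · omega) (fun j hj => by
      split_ifs with hj'
      · omega
      · omega) h'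
  funext c
  have h3 := h2 c (mem_range.1 (hB c.2))
  rw [dif_pos c.2, dif_pos c.2] at h3
  have h4 : ((s c : Fin 17) : ℕ) = 8 := by
    have h5 : ((s c : Fin 17) : ℕ) - 8 = 8 - ((s c : Fin 17) : ℕ) := h3
    omega
  exact Fin.ext h4

lemma NZ_le (L : ℕ) {B : Finset ℕ} (hB : B ⊆ range L) (s : B → Fin 17) :
    (NZ L s).natAbs ≤ 10 ^ (2 * L + 1) := by
  have h1 : ∀ K : ℕ, ∑ j ∈ range K, 9 * fr L (0 + j) ≤ 2 * 10 ^ (L + K) := by
    intro K
    induction K with
    | zero => simp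
    | succ K ih =>
      rw [sum_range_succ]
      have h2 := Pool.Agent.H898R2.PalT2.fr_le L (0 + K)
      have e1 : (10 : ℕ) ^ (L + (K + 1)) = 10 * 10 ^ (L + K) := by ring
      rw [e1]
      rw [Nat.zero_add] at h2 ⊢
      omega
  have h2 : ∀ x : ℕ → ℕ, (∀ j, x j ≤ 9) → ∑ c ∈ range L, x c * fr L (0 + c) ≤ 10 ^ (2 * L + 1) := by
    intro x hx
    calc ∑ c ∈ range L, x c * fr L (0 + c) ≤ ∑ c ∈ range L, 9 * fr L (0 + c) :=
          sum_le_sum fun c _ => Nat.mul_le_mul_right _ (hx c)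
      _ ≤ 2 * 10 ^ (L + L) := h1 L
      _ ≤ 10 ^ (2 * L + 1) := by
          rw [pow_succ, ← two_mul]
          omega
  rw [NZ_eq L hB s]
  have h3 := h2 (fun c => if h : c ∈ B then ((s ⟨c, h⟩ : Fin 17) : ℕ) - 8 else 0) (fun j => by
    split_ifs with hj'
    · have := (s ⟨j, hj'⟩).is_lt
      omega
    · omega)
  have h4 := h2 (fun c => if h : c ∈ B then 8 - ((s ⟨c, h⟩ : Fin 17) : ℕ) else 0) (fun j => by
    split_ifs with hj'
    · omega
    · omega)
  generalize (∑ c ∈ range L, (if h : c ∈ B then ((s ⟨c, h⟩ : Fin 17) : ℕ) - 8 else 0) * fr L (0 + c)) = u at *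
  generalize (∑ c ∈ range L, (if h : c ∈ B then 8 - ((s ⟨c, h⟩ : Fin 17) : ℕ) else 0) * fr L (0 + c)) = v at *
  omega

lemma gw_eight : gw 8 = 2508 / 10000 := by
  unfold gw
  rw [show gwN 8 = 2508 by decide]
  norm_num

/-- total mass, split at the constant choice `8` -/
lemma mass (B : Finset ℕ) (u v : ℝ) (hv : 0 ≤ v) :
    ∑ s ∈ Fintype.piFinset (fun _ : B => (univ : Finset (Fin 17))),
      (∏ c : B, gw (s c)) * (if s = fun _ => 8 then u else v) ≤ u * (2508 / 10000) ^ B.card + v := by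
  have h0 : ∀ s : B → Fin 17, 0 ≤ ∏ c : B, gw (s c) := fun s => prod_nonneg fun _ _ => gw_nonneg _
  have h1 : ∑ s ∈ Fintype.piFinset (fun _ : B => (univ : Finset (Fin 17))), ∏ c : B, gw (s c) = 1 := by
    rw [← prod_univ_sum (fun _ : B => (univ : Finset (Fin 17))) (fun _ s => gw s)]
    simp only [gw_sum, prod_const_one]
  calc ∑ s ∈ Fintype.piFinset (fun _ : B => (univ : Finset (Fin 17))),
      (∏ c : B, gw (s c)) * (if s = fun _ => 8 then u else v)
      ≤ ∑ s ∈ Fintype.piFinset (fun _ : B => (univ : Finset (Fin 17))),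
        ((if s = fun _ => 8 then u * (∏ c : B, gw (s c)) else 0) + v * ∏ c : B, gw (s c)) := by
        apply sum_le_sum
        intro s _
        have := h0 s
        split_ifs
        · nlinarith [mul_nonneg hv this]
        · linarith [mul_comm (∏ c : B, gw (s c)) v]
    _ = u * (2508 / 10000) ^ B.card + v := by
        rw [sum_add_distrib, ← mul_sum, h1, mul_one]
        congr 1
        rw [sum_ite_eq' , if_pos (by simp)]
        congr 1
        rw [prod_const, gw_eight, card_univ, Fintype.card_coe]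

lemma T_nonneg (L : ℕ) (T : ℝ)
    (hT : ∀ n : ℕ, 1 ≤ n → n ≤ 10 ^ (2 * L + 1) → (n.divisors.card : ℝ) ≤ T) : 0 ≤ T := by
  have := hT 1 le_rfl (Nat.one_le_pow _ _ (by norm_num))
  refine le_trans ?_ this
  positivity

/-- Q2: divisor bound -/
theorem G_apts (L Q : ℕ) (T : ℝ) (B : Finset ℕ) (hB : B ⊆ range L)
    (hT : ∀ n : ℕ, 1 ≤ n → n ≤ 10 ^ (2 * L + 1) → (n.divisors.card : ℝ) ≤ T) :
    apts Q (fun α => ∏ c ∈ B, Gf (fr L c * α)) ≤ 2 * Q * (Q * (2508 / 10000) ^ B.card + T) := by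
  rcases Nat.eq_zero_or_pos Q with hQ | hQ
  · subst hQ
    simp [apts]
  have hT0 := T_nonneg L T hT
  unfold apts
  have h1 : ∑ q ∈ (Ico Q (2 * Q)).filter (fun q => q.Coprime 10),
      ∑ a ∈ range q, ∏ c ∈ B, Gf (fr L c * ((a : ℝ) / q)) =
      ∑ s ∈ Fintype.piFinset (fun _ : B => (univ : Finset (Fin 17))),
        (∏ c : B, gw (s c)) * ∑ q ∈ (Ico Q (2 * Q)).filter (fun q => q.Coprime 10),
          if (q : ℤ) ∣ NZ L s then (q : ℝ) else 0 := by
    simp only [mul_sum]
    rw [sum_comm]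
    apply sum_congr rfl
    intro q hq
    rw [mem_filter, mem_Ico] at hq
    rw [G_core L q (by omega) B, mul_sum]
    apply sum_congr rfl
    intro s _
    change (q : ℝ) * (if (q : ℤ) ∣ NZ L s then ∏ c : B, gw (s c) else 0) = _
    split_ifs <;> ring
  rw [h1]
  refine le_trans ?_ ((mass B (2 * Q * Q) (2 * Q * T) (by positivity)).trans (le_of_eq (by ring)))
  apply sum_le_sum
  intro s _
  apply mul_le_mul_of_nonneg_left _ (prod_nonneg fun _ _ => gw_nonneg _)
  split_ifs with h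
  · calc ∑ q ∈ (Ico Q (2 * Q)).filter (fun q => q.Coprime 10),
        (if (q : ℤ) ∣ NZ L s then (q : ℝ) else 0)
        ≤ ∑ q ∈ (Ico Q (2 * Q)).filter (fun q => q.Coprime 10), (2 * Q : ℝ) := by
          apply sum_le_sum
          intro q hq
          rw [mem_filter, mem_Ico] at hq
          have : (q : ℝ) ≤ 2 * Q := by exact_mod_cast hq.1.2.le
          split_ifs
          · exact this
          · positivity
      _ ≤ ∑ q ∈ Ico Q (2 * Q), (2 * Q : ℝ) :=
          sum_le_sum_of_subset_of_nonneg (filter_subset _ _) (fun _ _ _ => by positivity)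
      _ = 2 * Q * Q := by
          rw [sum_const, Nat.card_Ico, nsmul_eq_mul]
          have : 2 * Q - Q = Q := by omega
          rw [this]
          ring
  · have hne : NZ L s ≠ 0 := fun h' => h (NZ_ne L hB s h')
    set n := (NZ L s).natAbs with hn
    have hn1 : 1 ≤ n := by omega
    have hn2 : n ≤ 10 ^ (2 * L + 1) := NZ_le L hB s
    have hdiv := hT n hn1 hn2
    calc ∑ q ∈ (Ico Q (2 * Q)).filter (fun q => q.Coprime 10),
        (if (q : ℤ) ∣ NZ L s then (q : ℝ) else 0)
        ≤ ∑ q ∈ Ico Q (2 * Q), (if q ∣ n then (2 * Q : ℝ) else 0) := by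
          refine (sum_le_sum_of_subset_of_nonneg (filter_subset _ _)
            (fun _ _ _ => by positivity)).trans ?_
          apply sum_le_sum
          intro q hq
          rw [mem_Ico] at hq
          have h2 : (q : ℝ) ≤ 2 * Q := by exact_mod_cast hq.2.le
          have h3 : ((q : ℤ) ∣ NZ L s) ↔ q ∣ n := by
            rw [hn, Int.natCast_dvd]
          simp only [h3]
          split_ifs
          · exact h2
          · exact le_rfl
      _ = ((Ico Q (2 * Q)).filter (fun q => q ∣ n)).card * (2 * Q : ℝ) := by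
          rw [← sum_filter, sum_const, nsmul_eq_mul]
      _ ≤ (n.divisors.card : ℝ) * (2 * Q : ℝ) := by
          apply mul_le_mul_of_nonneg_right _ (by positivity)
          have : (Ico Q (2 * Q)).filter (fun q => q ∣ n) ⊆ n.divisors := by
            intro q hq
            rw [mem_filter] at hq
            exact Nat.mem_divisors.2 ⟨hq.2, by omega⟩
          exact_mod_cast card_le_card this
      _ ≤ T * (2 * Q : ℝ) := mul_le_mul_of_nonneg_right hdiv (by positivity)
      _ = 2 * Q * T := by ring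

/-- Q2: divisor bound for square moduli -/
theorem G_sq (L P : ℕ) (T : ℝ) (B : Finset ℕ) (hB : B ⊆ range L) (hP : 1 ≤ P)
    (hT : ∀ n : ℕ, 1 ≤ n → n ≤ 10 ^ (2 * L + 1) → (n.divisors.card : ℝ) ≤ T) :
    ∑ m ∈ (Ico P (2 * P)).filter (fun m => m.Coprime 10),
      (∑ a ∈ range (m ^ 2), ∏ c ∈ B, Gf (fr L c * ((a : ℝ) / ((m ^ 2 : ℕ) : ℝ)))) / ((m ^ 2 : ℕ) : ℝ)
      ≤ P * (2508 / 10000) ^ B.card + T := by
  have hT0 := T_nonneg L T hT
  have h1 : ∑ m ∈ (Ico P (2 * P)).filter (fun m => m.Coprime 10),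
      (∑ a ∈ range (m ^ 2), ∏ c ∈ B, Gf (fr L c * ((a : ℝ) / ((m ^ 2 : ℕ) : ℝ)))) / ((m ^ 2 : ℕ) : ℝ) =
      ∑ s ∈ Fintype.piFinset (fun _ : B => (univ : Finset (Fin 17))),
        (∏ c : B, gw (s c)) * ∑ m ∈ (Ico P (2 * P)).filter (fun m => m.Coprime 10),
          if ((m ^ 2 : ℕ) : ℤ) ∣ NZ L s then (1 : ℝ) else 0 := by
    simp only [mul_sum]
    rw [sum_comm]
    apply sum_congr rfl
    intro m hm
    rw [mem_filter, mem_Ico] at hm
    have hm1 : 0 < m ^ 2 := by
      have : 0 < m := by omega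
      positivity
    have hm2 : (((m ^ 2 : ℕ) : ℝ)) ≠ 0 := by exact_mod_cast hm1.ne'
    rw [G_core L (m ^ 2) hm1 B, mul_div_cancel_left₀ _ hm2]
    apply sum_congr rfl
    intro s _
    change (if ((m ^ 2 : ℕ) : ℤ) ∣ NZ L s then ∏ c : B, gw (s c) else 0) = _
    split_ifs <;> ring
  rw [h1]
  refine le_trans ?_ (mass B P T hT0)
  apply sum_le_sum
  intro s _
  apply mul_le_mul_of_nonneg_left _ (prod_nonneg fun _ _ => gw_nonneg _)
  split_ifs with h
  · calc ∑ m ∈ (Ico P (2 * P)).filter (fun m => m.Coprime 10),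
        (if ((m ^ 2 : ℕ) : ℤ) ∣ NZ L s then (1 : ℝ) else 0)
        ≤ ∑ m ∈ (Ico P (2 * P)).filter (fun m => m.Coprime 10), (1 : ℝ) := by
          apply sum_le_sum
          intro m _
          split_ifs <;> norm_num
      _ ≤ ∑ m ∈ Ico P (2 * P), (1 : ℝ) :=
          sum_le_sum_of_subset_of_nonneg (filter_subset _ _) (fun _ _ _ => by positivity)
      _ = P := by
          rw [sum_const, Nat.card_Ico, nsmul_eq_mul]
          have : 2 * P - P = P := by omega
          rw [this]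
          ring
  · have hne : NZ L s ≠ 0 := fun h' => h (NZ_ne L hB s h')
    set n := (NZ L s).natAbs with hn
    have hn1 : 1 ≤ n := by omega
    have hn2 : n ≤ 10 ^ (2 * L + 1) := NZ_le L hB s
    have hdiv := hT n hn1 hn2
    calc ∑ m ∈ (Ico P (2 * P)).filter (fun m => m.Coprime 10),
        (if ((m ^ 2 : ℕ) : ℤ) ∣ NZ L s then (1 : ℝ) else 0)
        ≤ ∑ m ∈ Ico P (2 * P), (if m ∣ n then (1 : ℝ) else 0) := by
          refine (sum_le_sum_of_subset_of_nonneg (filter_subset _ _)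
            (fun _ _ _ => by positivity)).trans ?_
          apply sum_le_sum
          intro m _
          have h3 : (((m ^ 2 : ℕ) : ℤ) ∣ NZ L s) → m ∣ n := by
            intro h4
            rw [Int.natCast_dvd] at h4
            exact (dvd_pow_self m two_ne_zero).trans h4
          split_ifs with h5 h6
          · exact le_rfl
          · exact absurd (h3 h5) h6
          · norm_num
          · exact le_rfl
      _ = ((Ico P (2 * P)).filter (fun m => m ∣ n)).card := by
          rw [← sum_filter, sum_const, nsmul_eq_mul, mul_one]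
      _ ≤ (n.divisors.card : ℝ) := by
          have : (Ico P (2 * P)).filter (fun m => m ∣ n) ⊆ n.divisors := by
            intro m hm
            rw [mem_filter] at hm
            exact Nat.mem_divisors.2 ⟨hm.2, by omega⟩
          exact_mod_cast card_le_card this
      _ ≤ T := hdiv

end Pool.Agent.H503R2.PalQ2
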