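import Pool.Agent.H476R2.Pal.GDefs
import Pool.Agent.H985R2.PalT9a
import Pool.Agent.H985R2.PalT9b
import Pool.Agent.H503R2.PalQ2

/-! helper476's project (palindromes), task Q7: palindromes divisible by squares, level `X^(3/5)` -/

set_option autoImplicit false

namespace Pool.Agent.H503R2.PalQ7

open Finset Filter Topology Pool.Agent.Helper112 Pool.Agent.H476R2.Pal Pool.Agent.H985R2.Pal

/-- the statement of stub `split` (Q3) -/
def Split : Prop := ∀ (L J k K : ℕ) (lam : ℝ), 0 < lam → lam ≤ 1 → J ≤ k * K → J ≤ L → ∀ α : ℝ,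
    Ps L 0 L α ≤ (∑ i ∈ range k, lam * ∏ c ∈ (range L).filter (fun c => ¬ (c < J ∧ c / K = i)),
      Gf (fr L c * α)) + (lam ^ (3 * k))⁻¹ * Ps L 0 J α ^ 4

lemma EM_sum (M : ℕ) (k : ℕ) (lam : ℝ) (F : ℕ → ℝ → ℝ) (G : ℝ → ℝ) (b : ℝ) :
    EM M (fun x => (∑ i ∈ range k, lam * F i x) + b * G x) =
      (∑ i ∈ range k, lam * EM M (F i)) + b * EM M G := by
  unfold EM
  rw [sum_add_distrib, sum_comm, ← mul_sum, add_div, sum_div]
  congr 1
  · apply sum_congr rfl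
    intro i _
    rw [← mul_sum, mul_div_assoc]
  · rw [mul_div_assoc]

lemma card_B (L J K i : ℕ) (hK : 1 ≤ K) :
    L - K ≤ ((range L).filter (fun c => ¬ (c < J ∧ c / K = i))).card := by
  have h1 : ((range L).filter (fun c => (c < J ∧ c / K = i))).card ≤ K := by
    have : (range L).filter (fun c => (c < J ∧ c / K = i)) ⊆ Ico (i * K) ((i + 1) * K) := by
      intro c hc
      rw [mem_filter] at hc
      obtain ⟨_, _, h⟩ := hc
      rw [Nat.div_eq_iff (by omega)] at h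
      rw [mem_Ico, add_mul]
      omega
    refine (card_le_card this).trans ?_
    rw [Nat.card_Ico, add_mul]
    omega
  have h2 := card_filter_add_card_filter_not (s := range L) (fun c => (c < J ∧ c / K = i))
  rw [card_range] at h2
  omega

/-- Q7a: squares, one dyadic block -/
theorem sq_block2_of (split : Split) (L k K J P : ℕ) (T lam : ℝ) (h0 : 0 < lam) (h1 : lam ≤ 1)
    (hT : ∀ n : ℕ, 1 ≤ n → n ≤ 10 ^ (2 * L + 1) → (n.divisors.card : ℝ) ≤ T)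
    (hJ : 1 ≤ J) (hJk : J ≤ k * K) (hJL : J ≤ L) (h2 : 10 ^ J ≤ P) (h3 : P ≤ 10 * 10 ^ J) :
    ∑ m ∈ (Ico P (2 * P)).filter (fun m => m.Coprime 10), cnt L (m ^ 2) 0 ≤
      10 ^ L * (k * lam * (P * (2508 / 10000) ^ (L - K) + T) + 10 * (67 / 100) ^ J / lam ^ (3 * k)) := by
  have hP1 : 1 ≤ P := (Nat.one_le_pow _ _ (by norm_num)).trans h2
  have hK1 : 1 ≤ K := by
    rcases Nat.eq_zero_or_pos K with h | h
    · subst h
      omega
    · exact h
  obtain ⟨s, hs⟩ : ∃ s, (Ico P (2 * P)).filter (fun m => m.Coprime 10) = s := ⟨_, rfl⟩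
  rw [hs]
  have hmem : ∀ m ∈ s, P ≤ m ∧ m < 2 * P ∧ m.Coprime 10 := by
    intro m hm
    rw [← hs, mem_filter, mem_Ico] at hm
    exact ⟨hm.1.1, hm.1.2, hm.2⟩
  -- the fourth power part
  have hA : ∀ m ∈ s, EM (m ^ 2) (fun x => Ps L 0 J x ^ 4) = (67 / 100) ^ J / 10 ^ J := by
    intro m hm
    obtain ⟨g1, _, g3⟩ := hmem m hm
    have e2 := sqA L J J (m ^ 2) le_rfl hJ hJL (by
      calc 10 ^ (2 * J) = (10 ^ J) ^ 2 := by rw [← pow_mul, mul_comm]
        _ ≤ m ^ 2 := Nat.pow_le_pow_left (h2.trans g1) 2) (g3.pow_left 2)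
    rw [← e2]
    congr 1
    funext x
    rw [Nat.sub_self, Ps_zero]
    ring
  have hcard : (s.card : ℝ) ≤ 10 * 10 ^ J := by
    have : s.card ≤ 10 * 10 ^ J := by
      rw [← hs]
      refine (card_filter_le _ _).trans ?_
      rw [Nat.card_Ico]; omega
    exact_mod_cast this
  -- the majorant part
  have hG : ∀ i, ∑ m ∈ s, EM (m ^ 2) (fun x => ∏ c ∈ (range L).filter (fun c => ¬ (c < J ∧ c / K = i)),
      Gf (fr L c * x)) ≤ P * (2508 / 10000) ^ (L - K) + T := by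
    intro i
    have e1 := Pool.Agent.H503R2.PalQ2.G_sq L P T ((range L).filter (fun c => ¬ (c < J ∧ c / K = i)))
      (filter_subset _ _) hP1 hT
    rw [hs] at e1
    refine le_trans (le_of_eq rfl) (e1.trans ?_)
    have e2 := card_B L J K i hK1
    have e3 : (2508 / 10000 : ℝ) ^ ((range L).filter (fun c => ¬ (c < J ∧ c / K = i))).card ≤
        (2508 / 10000 : ℝ) ^ (L - K) := pow_le_pow_of_le_one (by norm_num) (by norm_num) e2
    have e4 : (0 : ℝ) ≤ P := Nat.cast_nonneg _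
    have := mul_le_mul_of_nonneg_left e3 e4
    linarith
  calc ∑ m ∈ s, cnt L (m ^ 2) 0 ≤ ∑ m ∈ s, 10 ^ L * ((∑ i ∈ range k, lam * EM (m ^ 2)
        (fun x => ∏ c ∈ (range L).filter (fun c => ¬ (c < J ∧ c / K = i)), Gf (fr L c * x))) +
        (lam ^ (3 * k))⁻¹ * EM (m ^ 2) (fun x => Ps L 0 J x ^ 4)) := by
        refine sum_le_sum fun m hm => ?_
        obtain ⟨g1, _, g3⟩ := hmem m hm
        refine (cnt_le L (m ^ 2) (pow_pos (by omega) 2)).trans ?_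
        refine mul_le_mul_of_nonneg_left ?_ (by positivity)
        rw [← EM_sum]
        exact EM_mono _ _ _ fun x => split L J k K lam h0 h1 hJk hJL x
    _ = 10 ^ L * ((∑ i ∈ range k, lam * ∑ m ∈ s, EM (m ^ 2)
        (fun x => ∏ c ∈ (range L).filter (fun c => ¬ (c < J ∧ c / K = i)), Gf (fr L c * x))) +
        (lam ^ (3 * k))⁻¹ * ∑ m ∈ s, EM (m ^ 2) (fun x => Ps L 0 J x ^ 4)) := by
        rw [← mul_sum, sum_add_distrib, sum_comm, ← mul_sum]
        simp only [mul_sum]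
    _ ≤ 10 ^ L * ((∑ i ∈ range k, lam * (P * (2508 / 10000) ^ (L - K) + T)) +
        (lam ^ (3 * k))⁻¹ * (10 * (67 / 100) ^ J)) := by
        refine mul_le_mul_of_nonneg_left ?_ (by positivity)
        refine add_le_add ?_ ?_
        · exact sum_le_sum fun i _ => mul_le_mul_of_nonneg_left (hG i) h0.le
        · refine mul_le_mul_of_nonneg_left ?_ (by positivity)
          rw [sum_congr rfl hA, sum_const, nsmul_eq_mul]
          have e4 : (0 : ℝ) < 10 ^ J := by positivity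
          rw [← mul_div_assoc, div_le_iff₀ e4]
          have e5 : (0 : ℝ) ≤ (67 / 100) ^ J := by positivity
          nlinarith [mul_le_mul_of_nonneg_right hcard e5]
    _ = 10 ^ L * (k * lam * (P * (2508 / 10000) ^ (L - K) + T) +
        10 * (67 / 100) ^ J / lam ^ (3 * k)) := by
        rw [sum_const, card_range, nsmul_eq_mul]
        congr 1
        rw [div_eq_mul_inv, mul_assoc]
        ring

lemma x_le : (2508 / 10000 : ℝ) ≤ (10 : ℝ) ^ (-(200 / 333) : ℝ) := by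
  have h1 : (2508 / 10000 : ℝ) ^ 333 ≤ (10 : ℝ) ^ (-200 : ℝ) := by
    rw [Real.rpow_neg (by norm_num), show (200 : ℝ) = ((200 : ℕ) : ℝ) by norm_num, Real.rpow_natCast,
      show (333 : ℕ) = 111 * 3 by norm_num, pow_mul]
    norm_num
  have h2 : (2508 / 10000 : ℝ) = ((2508 / 10000 : ℝ) ^ 333) ^ (1 / 333 : ℝ) := by
    rw [← Real.rpow_natCast, ← Real.rpow_mul (by norm_num)]
    norm_num
  rw [h2]
  refine (Real.rpow_le_rpow (by positivity) h1 (by norm_num)).trans (le_of_eq ?_)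
  rw [← Real.rpow_mul (by norm_num)]
  congr 1
  norm_num

/-- the diagonal term is at most `1` -/
lemma diag_le (L J P : ℕ) (hL : 3000 ≤ L) (hJ : (J : ℝ) ≤ 3 / 5 * L)
    (hP : (P : ℝ) ≤ (10 : ℝ) ^ ((3 / 5 : ℝ) * L)) :
    (P : ℝ) * (2508 / 10000) ^ (L - (J / 1000 + 1)) ≤ 1 := by
  have hLr : (3000 : ℝ) ≤ L := by exact_mod_cast hL
  have hK : ((J / 1000 + 1 : ℕ) : ℝ) ≤ J / 1000 + 1 := by
    push_cast
    have := Nat.cast_div_le (α := ℝ) (m := J) (n := 1000)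
    push_cast at this
    linarith
  have hLK : (L : ℝ) - ((J / 1000 + 1 : ℕ) : ℝ) ≤ ((L - (J / 1000 + 1) : ℕ) : ℝ) := by
    have : L ≤ (L - (J / 1000 + 1)) + (J / 1000 + 1) := by omega
    have h2 : (L : ℝ) ≤ ((L - (J / 1000 + 1) : ℕ) : ℝ) + ((J / 1000 + 1 : ℕ) : ℝ) := by
      exact_mod_cast this
    linarith
  have h1 : (2508 / 10000 : ℝ) ^ (L - (J / 1000 + 1)) ≤
      (10 : ℝ) ^ (-(200 / 333) * ((L - (J / 1000 + 1) : ℕ) : ℝ)) := by
    rw [Real.rpow_mul (by norm_num), Real.rpow_natCast]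
    exact pow_le_pow_left₀ (by norm_num) x_le _
  calc (P : ℝ) * (2508 / 10000) ^ (L - (J / 1000 + 1))
      ≤ (10 : ℝ) ^ ((3 / 5 : ℝ) * L) * (10 : ℝ) ^ (-(200 / 333) * ((L - (J / 1000 + 1) : ℕ) : ℝ)) :=
        mul_le_mul hP h1 (by positivity) (by positivity)
    _ = (10 : ℝ) ^ ((3 / 5 : ℝ) * L + -(200 / 333) * ((L - (J / 1000 + 1) : ℕ) : ℝ)) := by
        rw [Real.rpow_add (by norm_num)]
    _ ≤ (10 : ℝ) ^ (0 : ℝ) := by
        apply Real.rpow_le_rpow_of_exponent_le (by norm_num)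
        linarith
    _ = 1 := Real.rpow_zero _

/-- one block with the choice of parameters -/
lemma block (split : Split) (L J P : ℕ) (T : ℝ)
    (hT : ∀ n : ℕ, 1 ≤ n → n ≤ 10 ^ (2 * L + 1) → (n.divisors.card : ℝ) ≤ T)
    (hL : 3000 ≤ L) (hJ1 : 1 ≤ J) (hJ : (J : ℝ) ≤ 3 / 5 * L)
    (hP : (P : ℝ) ≤ (10 : ℝ) ^ ((3 / 5 : ℝ) * L)) (h2 : 10 ^ J ≤ P) (h3 : P ≤ 10 * 10 ^ J) :
    ∑ m ∈ (Ico P (2 * P)).filter (fun m => m.Coprime 10), cnt L (m ^ 2) 0 ≤
      3000 * 10 ^ L * T * (67 / 100) ^ (J / 6000) := by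
  have hT1 : 1 ≤ T := by
    have := hT 1 le_rfl (Nat.one_le_pow _ _ (by norm_num))
    simpa using this
  have hJL : J ≤ L := by
    have : (J : ℝ) ≤ L := hJ.trans (by
      have : (0 : ℝ) ≤ L := Nat.cast_nonneg _
      linarith)
    exact_mod_cast this
  obtain ⟨lam, hlam⟩ : ∃ lam : ℝ, (67 / 100 : ℝ) ^ (J / 6000) = lam := ⟨_, rfl⟩
  have hl0 : 0 < lam := by rw [← hlam]; positivity
  have hl1 : lam ≤ 1 := by rw [← hlam]; exact pow_le_one₀ (by norm_num) (by norm_num)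
  have h4 := sq_block2_of split L 1000 (J / 1000 + 1) J P T lam hl0 hl1 hT hJ1 (by omega) hJL h2 h3
  rw [hlam]
  refine h4.trans ?_
  have h5 : (67 / 100 : ℝ) ^ J / lam ^ (3 * 1000) ≤ lam := by
    rw [div_le_iff₀ (by positivity), ← pow_succ', ← hlam, ← pow_mul]
    apply pow_le_pow_of_le_one (by norm_num) (by norm_num)
    omega
  have h6 := diag_le L J P hL hJ hP
  have h7 : ((1000 : ℕ) : ℝ) * lam * (P * (2508 / 10000) ^ (L - (J / 1000 + 1)) + T) ≤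
      1000 * lam * (2 * T) := by
    push_cast
    apply mul_le_mul_of_nonneg_left _ (by positivity)
    linarith
  have h8 : (10 : ℝ) * (67 / 100) ^ J / lam ^ (3 * 1000) ≤ 1000 * lam * T := by
    rw [mul_div_assoc]
    have : (0 : ℝ) ≤ lam * (T - 1) := mul_nonneg hl0.le (by linarith)
    nlinarith
  calc 10 ^ L * (((1000 : ℕ) : ℝ) * lam * (P * (2508 / 10000) ^ (L - (J / 1000 + 1)) + T) +
        10 * (67 / 100) ^ J / lam ^ (3 * 1000))
      ≤ 10 ^ L * (1000 * lam * (2 * T) + 1000 * lam * T) :=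
        mul_le_mul_of_nonneg_left (add_le_add h7 h8) (by positivity)
    _ = 3000 * 10 ^ L * T * lam := by ring

open Classical in
/-- Q7b: squares -/
theorem squares2_of (split : Split) (A : ℕ) : ∀ᶠ L : ℕ in atTop,
    (((univ : Finset (Fin L → Fin 10)).filter (fun m => ∃ p : ℕ, p.Coprime 10 ∧
      (10 : ℝ) ^ ((L : ℝ) / 50) ≤ p ∧ (p : ℝ) ≤ (10 : ℝ) ^ ((3 / 5 : ℝ) * L) ∧ p ^ 2 ∣ pv L m)).card : ℝ)
      ≤ 10 ^ L / (L : ℝ) ^ A := by
  obtain ⟨ρ, hρ⟩ : ∃ ρ : ℝ, (67 / 100 : ℝ) ^ (1 / 600000 : ℝ) = ρ := ⟨_, rfl⟩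
  have hρ0 : 0 < ρ := by rw [← hρ]; positivity
  have hρ1 : ρ < 1 := by
    rw [← hρ]
    exact Real.rpow_lt_one (by norm_num) (by norm_num) (by positivity)
  obtain ⟨δ, hδ⟩ : ∃ δ : ℝ, Real.logb 10 (ρ⁻¹) / 2 = δ := ⟨_, rfl⟩
  have hδ0 : 0 < δ := by
    rw [← hδ]
    have := Real.logb_pos (b := 10) (by norm_num) ((one_lt_inv₀ hρ0).2 hρ1)
    linarith
  have h10 : (10 : ℝ) ^ (2 * δ) = ρ⁻¹ := by
    rw [← hδ, mul_div_cancel₀ _ (two_ne_zero)]
    exact Real.rpow_logb (by norm_num) (by norm_num) (inv_pos.2 hρ0)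
  obtain ⟨C, hC0, hC⟩ := divisor_bound δ hδ0
  have hlim := tendsto_pow_const_mul_const_pow_of_abs_lt_one (A + 1) (r := ρ)
    (by rw [abs_of_pos hρ0]; exact hρ1)
  have hK0 : (0 : ℝ) < 12000 * C * 10 ^ δ * (100 / 67) ^ 2 := by positivity
  have hev : ∀ᶠ L : ℕ in atTop, (L : ℝ) ^ (A + 1) * ρ ^ L <
      (12000 * C * (10 : ℝ) ^ δ * (100 / 67) ^ 2)⁻¹ :=
    hlim.eventually (gt_mem_nhds (inv_pos.2 hK0))
  filter_upwards [hev, eventually_ge_atTop 3000] with L hL1 hL2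
  have hL0 : (0 : ℝ) < L := by
    have : 0 < L := by omega
    exact_mod_cast this
  have hL400 : (3000 : ℝ) ≤ L := by exact_mod_cast hL2
  obtain ⟨T, hTdef⟩ : ∃ T : ℝ, C * ((10 : ℝ) ^ (2 * L + 1)) ^ δ = T := ⟨_, rfl⟩
  have hT : ∀ n : ℕ, 1 ≤ n → n ≤ 10 ^ (2 * L + 1) → (n.divisors.card : ℝ) ≤ T := by
    intro n h1 h2
    refine (hC n h1).trans ?_
    rw [← hTdef]
    refine mul_le_mul_of_nonneg_left ?_ hC0.le
    refine Real.rpow_le_rpow (Nat.cast_nonneg _) ?_ hδ0.le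
    exact_mod_cast h2
  have hTval : T = C * 10 ^ δ * (ρ⁻¹) ^ L := by
    rw [← hTdef, ← h10, ← Real.rpow_natCast, ← Real.rpow_natCast, ← Real.rpow_mul (by norm_num),
      ← Real.rpow_mul (by norm_num), mul_assoc C, ← Real.rpow_add (by norm_num)]
    congr 2
    push_cast
    ring
  have hT0 : 0 ≤ T := by rw [hTval]; positivity
  have hlamk : ∀ J : ℕ, (L : ℝ) / 50 ≤ J + 2 →
      (67 / 100 : ℝ) ^ (J / 6000) ≤ (ρ ^ L) ^ 2 * (100 / 67) ^ 2 := by
    intro J hJ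
    have e0 : (L : ℝ) / 300000 - 2 ≤ ((J / 6000 : ℕ) : ℝ) := by
      have h1 : J ≤ 6000 * (J / 6000) + 6000 := by omega
      have h2 : (J : ℝ) ≤ 6000 * ((J / 6000 : ℕ) : ℝ) + 6000 := by exact_mod_cast h1
      linarith
    have e1 : (67 / 100 : ℝ) ^ (J / 6000) ≤ (67 / 100 : ℝ) ^ ((L : ℝ) / 300000 - 2) := by
      rw [← Real.rpow_natCast]
      exact Real.rpow_le_rpow_of_exponent_ge (by norm_num) (by norm_num) e0
    refine e1.trans (le_of_eq ?_)
    rw [← hρ, ← pow_mul, ← Real.rpow_natCast, ← Real.rpow_mul (by norm_num),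
      Real.rpow_sub (by norm_num)]
    have e2 : (1 / 600000 : ℝ) * ((L * 2 : ℕ) : ℝ) = (L : ℝ) / 300000 := by push_cast; ring
    rw [e2, show (2 : ℝ) = ((2 : ℕ) : ℝ) by norm_num, Real.rpow_natCast]
    norm_num
    ring
  -- dyadic blocks
  let E : Finset ℕ := (range (4 * L)).filter fun e =>
    1 ≤ Nat.log 10 (2 ^ e) ∧ (L : ℝ) / 50 ≤ (Nat.log 10 (2 ^ e) : ℝ) + 2 ∧
      (((2 ^ e : ℕ) : ℝ)) ≤ (10 : ℝ) ^ ((3 / 5 : ℝ) * L)
  have hE : ∀ e ∈ E,
      ∑ m ∈ (Ico (2 ^ e) (2 * 2 ^ e)).filter (fun m => m.Coprime 10), cnt L (m ^ 2) 0 ≤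
        3000 * 10 ^ L * T * ((ρ ^ L) ^ 2 * (100 / 67) ^ 2) := by
    intro e he
    obtain ⟨_, h1, h2, h3⟩ := Finset.mem_filter.1 he
    have h4 : 10 ^ (Nat.log 10 (2 ^ e)) ≤ 2 ^ e := Nat.pow_log_le_self 10 (by positivity)
    have h5 : ((Nat.log 10 (2 ^ e) : ℕ) : ℝ) ≤ 3 / 5 * L := by
      have h1 : (10 : ℝ) ^ ((Nat.log 10 (2 ^ e) : ℕ) : ℝ) ≤ (10 : ℝ) ^ ((3 / 5 : ℝ) * L) := by
        rw [Real.rpow_natCast]
        refine le_trans ?_ h3
        exact_mod_cast h4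
      exact (Real.rpow_le_rpow_left_iff (by norm_num)).1 h1
    refine (block split L (Nat.log 10 (2 ^ e)) (2 ^ e) T hT hL2 h1 h5 h3 h4 ?_).trans ?_
    · have := Nat.lt_pow_succ_log_self (b := 10) (by norm_num) (2 ^ e)
      rw [pow_succ] at this
      omega
    · exact mul_le_mul_of_nonneg_left (hlamk _ h2) (by positivity)
  have hcov := cover L E _ hE (fun m => ∃ p : ℕ, p.Coprime 10 ∧
      (10 : ℝ) ^ ((L : ℝ) / 50) ≤ p ∧ (p : ℝ) ≤ (10 : ℝ) ^ ((3 / 5 : ℝ) * L) ∧ p ^ 2 ∣ pv L m) (by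
    rintro m ⟨p, hp1, hp2, hp3, hp4⟩
    have hp0 : p ≠ 0 := by
      rintro rfl
      have : (0 : ℝ) < (10 : ℝ) ^ ((L : ℝ) / 50) := by positivity
      rw [Nat.cast_zero] at hp2
      linarith
    have hlow : 2 ^ Nat.log 2 p ≤ p := Nat.pow_log_le_self 2 hp0
    have hupp : p < 2 * 2 ^ Nat.log 2 p := by
      have := Nat.lt_pow_succ_log_self (b := 2) (by norm_num) p
      rwa [pow_succ'] at this
    obtain ⟨J, hJ⟩ : ∃ J, Nat.log 10 (2 ^ Nat.log 2 p) = J := ⟨_, rfl⟩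
    have hJ1 : 10 ^ J ≤ 2 ^ Nat.log 2 p := by
      rw [← hJ]; exact Nat.pow_log_le_self 10 (by positivity)
    have hJ2 : 2 ^ Nat.log 2 p < 10 ^ (J + 1) := by
      rw [← hJ]; exact Nat.lt_pow_succ_log_self (b := 10) (by norm_num) _
    have hJup : (J : ℝ) ≤ (3 / 5 : ℝ) * L := by
      have h1 : (10 : ℝ) ^ (J : ℝ) ≤ (10 : ℝ) ^ ((3 / 5 : ℝ) * L) := by
        rw [Real.rpow_natCast]
        refine le_trans ?_ hp3
        exact_mod_cast hJ1.trans hlow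
      exact (Real.rpow_le_rpow_left_iff (by norm_num)).1 h1
    have hJlow : (L : ℝ) / 50 ≤ J + 2 := by
      have h1 : (10 : ℝ) ^ ((L : ℝ) / 50) ≤ (10 : ℝ) ^ ((J : ℝ) + 2) := by
        refine hp2.trans ?_
        have h2 : p ≤ 10 ^ (J + 2) := by
          have e1 : (10 : ℕ) ^ (J + 2) = 10 * 10 ^ (J + 1) := by rw [pow_succ']
          rw [e1]
          omega
        have h3 : (10 : ℝ) ^ ((J : ℝ) + 2) = (10 : ℝ) ^ (J + 2) := by
          rw [← Real.rpow_natCast]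
          push_cast
          rfl
        rw [h3]
        exact_mod_cast h2
      exact (Real.rpow_le_rpow_left_iff (by norm_num)).1 h1
    have hJpos : 1 ≤ J := by
      have : (1 : ℝ) ≤ J := by linarith
      exact_mod_cast this
    have hJL : J + 1 ≤ L := by
      have : (J : ℝ) + 1 ≤ L := by linarith
      exact_mod_cast this
    have hlog : Nat.log 2 p < 4 * L := by
      have h1 : (2 : ℕ) ^ Nat.log 2 p < 2 ^ (4 * L) := by
        refine lt_of_lt_of_le hJ2 ?_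
        calc (10 : ℕ) ^ (J + 1) ≤ 10 ^ L := Nat.pow_le_pow_right (by norm_num) (by omega)
          _ ≤ 16 ^ L := Nat.pow_le_pow_left (by norm_num) L
          _ = 2 ^ (4 * L) := by rw [pow_mul]; norm_num
      exact (Nat.pow_lt_pow_iff_right (by norm_num)).1 h1
    refine ⟨Nat.log 2 p, ?_, p, hlow, hupp, hp1, hp4⟩
    rw [Finset.mem_filter, Finset.mem_range, hJ]
    refine ⟨hlog, hJpos, hJlow, ?_⟩
    refine le_trans ?_ hp3
    exact_mod_cast hlow)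
  refine hcov.trans ?_
  have hEc : (E.card : ℝ) ≤ 4 * L := by
    have : E.card ≤ 4 * L := by
      refine (Finset.card_filter_le _ _).trans ?_
      rw [Finset.card_range]
    exact_mod_cast this
  have hr : ρ ^ L ≠ 0 := (pow_pos hρ0 L).ne'
  calc (E.card : ℝ) * (3000 * 10 ^ L * T * ((ρ ^ L) ^ 2 * (100 / 67) ^ 2)) ≤
      (4 * L) * (3000 * 10 ^ L * T * ((ρ ^ L) ^ 2 * (100 / 67) ^ 2)) :=
        mul_le_mul_of_nonneg_right hEc (by positivity)
    _ = 10 ^ L * ((12000 * C * 10 ^ δ * (100 / 67) ^ 2) * (L * ρ ^ L)) := by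
        rw [hTval, inv_pow]
        field_simp
        ring
    _ ≤ 10 ^ L * (1 / (L : ℝ) ^ A) := by
        refine mul_le_mul_of_nonneg_left ?_ (by positivity)
        rw [le_div_iff₀ (by positivity)]
        have e1 : (12000 * C * 10 ^ δ * (100 / 67) ^ 2) * (L * ρ ^ L) * (L : ℝ) ^ A =
            (12000 * C * 10 ^ δ * (100 / 67) ^ 2) * ((L : ℝ) ^ (A + 1) * ρ ^ L) := by
          rw [pow_succ]; ring
        rw [e1]
        calc (12000 * C * 10 ^ δ * (100 / 67) ^ 2) * ((L : ℝ) ^ (A + 1) * ρ ^ L) ≤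
            (12000 * C * 10 ^ δ * (100 / 67) ^ 2) * (12000 * C * 10 ^ δ * (100 / 67) ^ 2)⁻¹ :=
              mul_le_mul_of_nonneg_left hL1.le hK0.le
          _ = 1 := mul_inv_cancel₀ hK0.ne'
    _ = 10 ^ L / (L : ℝ) ^ A := by ring

end Pool.Agent.H503R2.PalQ7
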