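import Mathlib
import Pool.Agent.H925R3.RR.Stubs

/-!
# Gap principle (task GAPS of helper925)
-/

namespace Pool.Agent.H503R2.RRG

open Finset

/-- the gap between two exceptional integers -/
theorem gap (l : ℕ → ℝ) (h C c : ℝ) (hh : 0 < h) (hC : 0 ≤ C)
    (h1 : ∀ n n' : ℕ, 1 ≤ n → n < n' → min (l n) (l n') ≤ l (n' - n) + C)
    (h2 : ∀ n : ℕ, 1 ≤ n → l n ≤ h * (n : ℝ) ^ 2 + C) (hc : 0 < c) (n n' : ℕ) (hn : 1 ≤ n)
    (hnn : n < n') (hl : c * (n : ℝ) ^ 2 ≤ l n) (hl' : c * (n' : ℝ) ^ 2 ≤ l n')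
    (h4 : 4 * C ≤ c * (n : ℝ) ^ 2) : (1 + Real.sqrt (c / (2 * h))) * n ≤ n' := by
  have hnr : (0 : ℝ) < n := by exact_mod_cast hn
  have hlt : (n : ℝ) < n' := by exact_mod_cast hnn
  have e1 : c * (n : ℝ) ^ 2 ≤ min (l n) (l n') := by
    refine le_min hl (le_trans ?_ hl')
    have : (n : ℝ) ^ 2 ≤ (n' : ℝ) ^ 2 := by nlinarith
    exact mul_le_mul_of_nonneg_left this hc.le
  have e2 := h1 n n' hn hnn
  have e3 := h2 (n' - n) (by omega)
  rw [Nat.cast_sub hnn.le] at e3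
  have e4 : c / 2 * (n : ℝ) ^ 2 ≤ h * ((n' : ℝ) - n) ^ 2 := by linarith
  have e5 : (Real.sqrt (c / (2 * h)) * n) ^ 2 ≤ ((n' : ℝ) - n) ^ 2 := by
    rw [mul_pow, Real.sq_sqrt (by positivity)]
    have e6 : c / (2 * h) * (n : ℝ) ^ 2 = (c / 2 * (n : ℝ) ^ 2) / h := by
      field_simp
    rw [e6, div_le_iff₀ hh]
    linarith
  have e7 : Real.sqrt (c / (2 * h)) * n ≤ (n' : ℝ) - n :=
    le_of_sq_le_sq e5 (by linarith)
  linarith

open Classical in
theorem gaps : Pool.Agent.H925R3.RR.GAPS := by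
  intro l h C0 hh h10 h20 c hc
  set C : ℝ := max C0 0 with hCdef
  have hC : 0 ≤ C := le_max_right _ _
  have hC0 : C0 ≤ C := le_max_left _ _
  have h1 : ∀ n n' : ℕ, 1 ≤ n → n < n' → min (l n) (l n') ≤ l (n' - n) + C :=
    fun n n' hn hnn => (h10 n n' hn hnn).trans (by linarith)
  have h2 : ∀ n : ℕ, 1 ≤ n → l n ≤ h * (n : ℝ) ^ 2 + C := fun n hn => (h20 n hn).trans (by linarith)
  obtain ⟨n0, hn0⟩ := exists_nat_gt (4 * C / c)
  set δ : ℝ := Real.sqrt (c / (2 * h)) with hδ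
  have hδ0 : 0 < δ := Real.sqrt_pos.2 (by positivity)
  set L : ℝ := Real.log (1 + δ) with hL
  have hL0 : 0 < L := Real.log_pos (by linarith)
  refine ⟨n0 + 1 + 1 / L, fun X hX => ?_⟩
  have hXr : (1 : ℝ) ≤ X := by exact_mod_cast hX
  have hlX : 0 ≤ Real.log X := Real.log_nonneg hXr
  set s : Finset ℕ := (Finset.Icc 1 X).filter (fun n => c * (n : ℝ) ^ 2 ≤ l n) with hs
  have hcard : Nat.card {n : ℕ // 1 ≤ n ∧ n ≤ X ∧ c * (n : ℝ) ^ 2 ≤ l n} = s.card := by
    apply Nat.subtype_card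
    intro n
    rw [hs, Finset.mem_filter, Finset.mem_Icc, and_assoc]
  rw [hcard]
  set T : Finset ℕ := s.filter (fun n => n0 ≤ n) with hT
  have hsub : s ⊆ Finset.range n0 ∪ T := by
    intro n hn
    rw [Finset.mem_union, Finset.mem_range]
    by_cases h3 : n < n0
    · exact Or.inl h3
    · exact Or.inr (by rw [hT, Finset.mem_filter]; exact ⟨hn, not_lt.1 h3⟩)
  have hTc : T.card ≤ (Finset.range (⌊Real.log X / L⌋₊ + 1)).card := by
    have hmono : ∀ n ∈ T, ∀ n' ∈ T, n < n' →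
        ⌊Real.log n / L⌋₊ < ⌊Real.log n' / L⌋₊ := by
      intro n hn n' hn' hnn
      rw [hT, Finset.mem_filter, hs, Finset.mem_filter, Finset.mem_Icc] at hn hn'
      obtain ⟨⟨⟨ha1, ha2⟩, ha3⟩, ha4⟩ := hn
      obtain ⟨⟨⟨hb1, hb2⟩, hb3⟩, hb4⟩ := hn'
      have hnr : (1 : ℝ) ≤ n := by exact_mod_cast ha1
      have h4 : 4 * C ≤ c * (n : ℝ) ^ 2 := by
        have h5 : (n0 : ℝ) ≤ n := by exact_mod_cast ha4
        have h6 : 4 * C < c * n0 := by
          rw [div_lt_iff₀ hc] at hn0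
          linarith
        have h7 : c * (n0 : ℝ) ≤ c * n := mul_le_mul_of_nonneg_left h5 hc.le
        have h8 : c * (n : ℝ) ≤ c * (n : ℝ) ^ 2 := mul_le_mul_of_nonneg_left (by nlinarith) hc.le
        linarith
      have h5 := gap l h C c hh hC h1 h2 hc n n' ha1 hnn ha3 hb3 h4
      rw [← hδ] at h5
      have h6 : L + Real.log n ≤ Real.log n' := by
        rw [hL, ← Real.log_mul (by linarith) (by linarith)]
        exact Real.log_le_log (by positivity) h5
      have h7 : Real.log n / L + 1 ≤ Real.log n' / L := by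
        rw [div_add_one hL0.ne', div_le_div_iff_of_pos_right hL0]
        linarith
      have h8 : 0 ≤ Real.log n / L := div_nonneg (Real.log_nonneg hnr) hL0.le
      have h9 : ⌊Real.log n / L + 1⌋₊ ≤ ⌊Real.log n' / L⌋₊ := Nat.floor_mono h7
      rw [Nat.floor_add_one h8] at h9
      omega
    refine Finset.card_le_card_of_injOn (fun n => ⌊Real.log n / L⌋₊) ?_ ?_
    · intro n hn
      have hn' : n ∈ T := hn
      rw [hT, Finset.mem_filter, hs, Finset.mem_filter, Finset.mem_Icc] at hn'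
      have hn1 : (1 : ℝ) ≤ n := by exact_mod_cast hn'.1.1.1
      have hn2 : (n : ℝ) ≤ X := by exact_mod_cast hn'.1.1.2
      have h3 : ⌊Real.log n / L⌋₊ ≤ ⌊Real.log X / L⌋₊ := by
        apply Nat.floor_mono
        rw [div_le_div_iff_of_pos_right hL0]
        exact Real.log_le_log (by linarith) hn2
      show ⌊Real.log n / L⌋₊ ∈ (Finset.range (⌊Real.log X / L⌋₊ + 1) : Set ℕ)
      rw [Finset.mem_coe, Finset.mem_range]
      omega
    · intro n hn n' hn' he
      rcases lt_trichotomy n n' with h3 | h3 | h3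
      · exact absurd he (hmono n hn n' hn' h3).ne
      · exact h3
      · exact absurd he (hmono n' hn' n hn h3).ne'
  have hsc : s.card ≤ n0 + (⌊Real.log X / L⌋₊ + 1) := by
    refine (Finset.card_le_card hsub).trans ((Finset.card_union_le _ _).trans ?_)
    rw [Finset.card_range] at hTc ⊢
    omega
  have hfl : ((⌊Real.log X / L⌋₊ : ℕ) : ℝ) ≤ Real.log X / L :=
    Nat.floor_le (div_nonneg hlX hL0.le)
  have hsr : (s.card : ℝ) ≤ n0 + (Real.log X / L + 1) := by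
    have h3 : (s.card : ℝ) ≤ ((n0 + (⌊Real.log X / L⌋₊ + 1) : ℕ) : ℝ) := by exact_mod_cast hsc
    push_cast at h3
    linarith
  refine hsr.trans ?_
  have e1 : Real.log X / L = 1 / L * Real.log X := by ring
  rw [e1]
  have h3 : 0 < 1 / L := by positivity
  have h4 : (0 : ℝ) ≤ n0 := Nat.cast_nonneg _
  nlinarith [mul_nonneg h4 hlX]

end Pool.Agent.H503R2.RRG
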